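import Mathlib

/-!
# Finite form of the improved linear programming bound for binary codes (helper23)

Kernel `Phi(R,R') = c_{|R|} c_{|R'|} Z(R,R')^2` on subsets of `Fin n`.
-/

namespace Pool.Agent.Helper23.KL

open Finset

variable {n : ℕ}

/-- sign of a bit -/
def sg (b : Bool) : ℝ := if b then -1 else 1

lemma sg_sq (b : Bool) : sg b * sg b = 1 := by cases b <;> simp [sg]

/-- flip the element `i` -/
def tog (i : Fin n) (R : Finset (Fin n)) : Finset (Fin n) := symmDiff R {i}

lemma tog_tog (i : Fin n) (R : Finset (Fin n)) : tog i (tog i R) = R := by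
  simp [tog]

/-- flipping `i` as a permutation -/
def togP (i : Fin n) : Equiv.Perm (Finset (Fin n)) :=
  Function.Involutive.toPerm (tog i) (tog_tog i)

lemma togP_apply (i : Fin n) (R : Finset (Fin n)) : togP i R = tog i R := rfl

lemma tog_of_mem {i : Fin n} {R : Finset (Fin n)} (h : i ∈ R) : tog i R = R.erase i := by
  ext x
  simp only [tog, mem_symmDiff, mem_singleton, mem_erase]
  by_cases hx : x = i
  · subst hx; simp [h]
  · simp [hx]

lemma tog_of_notMem {i : Fin n} {R : Finset (Fin n)} (h : i ∉ R) : tog i R = insert i R := by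
  ext x
  simp only [tog, mem_symmDiff, mem_singleton, mem_insert]
  by_cases hx : x = i
  · subst hx; simp [h]
  · simp [hx]

lemma card_tog_of_mem {i : Fin n} {R : Finset (Fin n)} (h : i ∈ R) :
    (tog i R).card = R.card - 1 := by
  rw [tog_of_mem h, card_erase_of_mem h]

lemma card_tog_of_notMem {i : Fin n} {R : Finset (Fin n)} (h : i ∉ R) :
    (tog i R).card = R.card + 1 := by
  rw [tog_of_notMem h, card_insert_of_notMem h]

/-- character -/
def chi (R : Finset (Fin n)) (u : Fin n → Bool) : ℝ := ∏ i ∈ R, sg (u i)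

lemma chi_sq (R : Finset (Fin n)) (u : Fin n → Bool) : chi R u * chi R u = 1 := by
  unfold chi
  rw [← Finset.prod_mul_distrib]
  exact Finset.prod_eq_one fun i _ => sg_sq _

lemma chi_tog (i : Fin n) (R : Finset (Fin n)) (u : Fin n → Bool) :
    chi (tog i R) u = sg (u i) * chi R u := by
  by_cases h : i ∈ R
  · rw [tog_of_mem h]
    unfold chi
    rw [← Finset.mul_prod_erase R (fun j => sg (u j)) h, ← mul_assoc, sg_sq, one_mul]
  · rw [tog_of_notMem h]
    unfold chi
    rw [Finset.prod_insert h]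

/-- sum of the products of signs -/
lemma sum_sg (u v : Fin n → Bool) :
    ∑ i, sg (u i) * sg (v i) = (n : ℝ) - 2 * (hammingDist u v : ℝ) := by
  have h1 : ∀ i, sg (u i) * sg (v i) = 1 - 2 * (if u i ≠ v i then (1 : ℝ) else 0) := by
    intro i
    cases hu : u i <;> cases hv : v i <;> simp [sg] <;> norm_num
  rw [Finset.sum_congr rfl fun i _ => h1 i, Finset.sum_sub_distrib, ← Finset.mul_sum,
    Finset.sum_boole]
  simp [hammingDist]

/-- sum of `c` over the neighbours -/
lemma sum_card_tog (c : ℕ → ℝ) (R : Finset (Fin n)) :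
    ∑ i, c (tog i R).card
      = ((n : ℝ) - R.card) * c (R.card + 1) + (R.card : ℝ) * c (R.card - 1) := by
  have h1 : ∀ i, c (tog i R).card
      = (if i ∈ R then c (R.card - 1) else 0) + (if i ∈ R then 0 else c (R.card + 1)) := by
    intro i
    by_cases h : i ∈ R
    · simp [h, card_tog_of_mem h]
    · simp [h, card_tog_of_notMem h]
  rw [Finset.sum_congr rfl fun i _ => h1 i, Finset.sum_add_distrib]
  have h2 : ∑ i, (if i ∈ R then c (R.card - 1) else 0) = (R.card : ℝ) * c (R.card - 1) := by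
    rw [← Finset.sum_filter]
    simp
  have h3 : ∑ i, (if i ∈ R then 0 else c (R.card + 1)) = ((n : ℝ) - R.card) * c (R.card + 1) := by
    have : ∑ i, (if i ∈ R then 0 else c (R.card + 1))
        = ∑ i, (c (R.card + 1) - (if i ∈ R then c (R.card + 1) else 0)) := by
      refine Finset.sum_congr rfl fun i _ => ?_
      by_cases h : i ∈ R <;> simp [h]
    rw [this, Finset.sum_sub_distrib, ← Finset.sum_filter]
    simp
    ring
  rw [h2, h3]
  ring

section abstractBound

variable {ι : Type*} [Fintype ι]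

/-- the zonal kernel -/
def Z (h : ι → Finset (Fin n) → ℝ) (R R' : Finset (Fin n)) : ℝ := ∑ a, h a R * h a R'

/-- the kernel -/
def Phi (c : ℕ → ℝ) (h : ι → Finset (Fin n) → ℝ) (R R' : Finset (Fin n)) : ℝ :=
  c R.card * c R'.card * (Z h R R') ^ 2

lemma Phi_nonneg (c : ℕ → ℝ) (hc : ∀ j, 0 ≤ c j) (h : ι → Finset (Fin n) → ℝ)
    (R R' : Finset (Fin n)) : 0 ≤ Phi c h R R' :=
  mul_nonneg (mul_nonneg (hc _) (hc _)) (sq_nonneg _)

/-- harmonic of degree `e` -/
def Harm (e : ℕ) (f : Finset (Fin n) → ℝ) : Prop :=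
  ∀ (c : ℕ → ℝ) (R : Finset (Fin n)),
    ∑ i, c (tog i R).card * f (tog i R)
      = f R * (((n : ℝ) - e - R.card) * c (R.card + 1) + ((R.card : ℝ) - e) * c (R.card - 1))

lemma Z_harm (e : ℕ) (h : ι → Finset (Fin n) → ℝ) (hh : ∀ a, Harm e (h a)) (c : ℕ → ℝ)
    (R R' : Finset (Fin n)) :
    ∑ i, c (tog i R).card * Z h (tog i R) R'
      = Z h R R' * (((n : ℝ) - e - R.card) * c (R.card + 1)
          + ((R.card : ℝ) - e) * c (R.card - 1)) := by
  unfold Z
  have h1 : ∀ i, c (tog i R).card * ∑ a, h a (tog i R) * h a R'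
      = ∑ a, (c (tog i R).card * h a (tog i R)) * h a R' := by
    intro i
    rw [Finset.mul_sum]
    exact Finset.sum_congr rfl fun a _ => by ring
  rw [Finset.sum_congr rfl fun i _ => h1 i, Finset.sum_comm, Finset.sum_mul]
  refine Finset.sum_congr rfl fun a _ => ?_
  rw [← Finset.sum_mul, hh a c R]
  ring

/-- the key inequality -/
lemma APhi_ge (e : ℕ) (h : ι → Finset (Fin n) → ℝ) (hh : ∀ a, Harm e (h a)) (c : ℕ → ℝ)
    (hc : ∀ j, 0 ≤ c j) (R R' : Finset (Fin n)) :
    c R'.card * (Z h R R') ^ 2 * (((n : ℝ) - 2 * e - R.card) * c (R.card + 1)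
        + ((R.card : ℝ) - 2 * e) * c (R.card - 1))
      ≤ ∑ i, Phi c h (tog i R) R' := by
  have h1 : ∀ i, c R'.card * (c (tog i R).card * (2 * Z h (tog i R) R' * Z h R R' - (Z h R R') ^ 2))
      ≤ Phi c h (tog i R) R' := by
    intro i
    unfold Phi
    have h2 : 2 * Z h (tog i R) R' * Z h R R' - (Z h R R') ^ 2 ≤ (Z h (tog i R) R') ^ 2 := by
      nlinarith [sq_nonneg (Z h (tog i R) R' - Z h R R')]
    have h3 := mul_le_mul_of_nonneg_left h2 (mul_nonneg (hc R'.card) (hc (tog i R).card))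
    nlinarith [h3]
  refine le_trans (le_of_eq ?_) (Finset.sum_le_sum fun i _ => h1 i)
  have h4 : ∑ i, c R'.card * (c (tog i R).card * (2 * Z h (tog i R) R' * Z h R R'
        - (Z h R R') ^ 2))
      = c R'.card * (2 * Z h R R' * (∑ i, c (tog i R).card * Z h (tog i R) R')
          - (Z h R R') ^ 2 * ∑ i, c (tog i R).card) := by
    rw [Finset.mul_sum, Finset.mul_sum, ← Finset.sum_sub_distrib, Finset.mul_sum]
    exact Finset.sum_congr rfl fun i _ => by ring
  rw [h4, Z_harm e h hh, sum_card_tog]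
  ring

/-- positivity of `G` -/
lemma sum_Phi_eq_sq (c : ℕ → ℝ) (h : ι → Finset (Fin n) → ℝ) (w : Finset (Fin n) → ℝ) :
    ∑ R, ∑ R', Phi c h R R' * (w R * w R')
      = ∑ a, ∑ b, (∑ R, c R.card * h a R * h b R * w R) ^ 2 := by
  have h1 : ∀ a b, (∑ R, c R.card * h a R * h b R * w R) ^ 2
      = ∑ R, ∑ R', (c R.card * h a R * h b R * w R) * (c R'.card * h a R' * h b R' * w R') := by
    intro a b
    rw [sq, Finset.sum_mul_sum]
  simp_rw [h1]
  have h2 : ∀ R R', Phi c h R R' * (w R * w R')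
      = ∑ a, ∑ b, (c R.card * h a R * h b R * w R) * (c R'.card * h a R' * h b R' * w R') := by
    intro R R'
    unfold Phi Z
    rw [sq, Finset.sum_mul_sum, Finset.mul_sum, Finset.sum_mul]
    refine Finset.sum_congr rfl fun a _ => ?_
    rw [Finset.mul_sum, Finset.sum_mul]
    refine Finset.sum_congr rfl fun b _ => ?_
    ring
  simp_rw [h2]
  calc ∑ R, ∑ R', ∑ a, ∑ b, (c R.card * h a R * h b R * w R) * (c R'.card * h a R' * h b R' * w R')
      = ∑ R, ∑ a, ∑ R', ∑ b, (c R.card * h a R * h b R * w R)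
          * (c R'.card * h a R' * h b R' * w R') := by
        refine Finset.sum_congr rfl fun R _ => Finset.sum_comm
    _ = ∑ R, ∑ a, ∑ b, ∑ R', (c R.card * h a R * h b R * w R)
          * (c R'.card * h a R' * h b R' * w R') := by
        refine Finset.sum_congr rfl fun R _ => Finset.sum_congr rfl fun a _ => Finset.sum_comm
    _ = ∑ a, ∑ R, ∑ b, ∑ R', (c R.card * h a R * h b R * w R)
          * (c R'.card * h a R' * h b R' * w R') := Finset.sum_comm
    _ = _ := by
        refine Finset.sum_congr rfl fun a _ => Finset.sum_comm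

/-- the Fourier side of multiplication by `n - 2 dist` -/
lemma shift_sum (F : Finset (Fin n) → Finset (Fin n) → ℝ) (u v : Fin n → Bool) :
    ((n : ℝ) - 2 * (hammingDist u v : ℝ)) *
      (∑ R, ∑ R', F R R' * ((chi R u * chi R v) * (chi R' u * chi R' v)))
      = ∑ R, ∑ R', (∑ i, F (tog i R) R') * ((chi R u * chi R v) * (chi R' u * chi R' v)) := by
  rw [← sum_sg, Finset.sum_mul]
  have h1 : ∀ i : Fin n, sg (u i) * sg (v i) *
      (∑ R, ∑ R', F R R' * ((chi R u * chi R v) * (chi R' u * chi R' v)))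
      = ∑ R, ∑ R', F (tog i R) R' * ((chi R u * chi R v) * (chi R' u * chi R' v)) := by
    intro i
    rw [← Equiv.sum_comp (togP i) (fun R => ∑ R', F (tog i R) R' *
      ((chi R u * chi R v) * (chi R' u * chi R' v))), Finset.mul_sum]
    refine Finset.sum_congr rfl fun R _ => ?_
    rw [Finset.mul_sum]
    refine Finset.sum_congr rfl fun R' _ => ?_
    rw [togP_apply, tog_tog, chi_tog, chi_tog]
    ring
  rw [Finset.sum_congr rfl fun i _ => h1 i, Finset.sum_comm]
  refine Finset.sum_congr rfl fun R _ => ?_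
  rw [Finset.sum_comm]
  refine Finset.sum_congr rfl fun R' _ => ?_
  rw [Finset.sum_mul]

/-- sum over the code of a nonnegative kernel -/
lemma code_sum_ge (F : Finset (Fin n) → Finset (Fin n) → ℝ) (hF : ∀ R R', 0 ≤ F R R')
    (C : Finset (Fin n → Bool)) :
    (∑ R, F R R) * (C.card : ℝ) ^ 2
      ≤ ∑ u ∈ C, ∑ v ∈ C, ∑ R, ∑ R', F R R' * ((chi R u * chi R v) * (chi R' u * chi R' v)) := by
  have h1 : ∑ u ∈ C, ∑ v ∈ C, ∑ R, ∑ R', F R R' * ((chi R u * chi R v) * (chi R' u * chi R' v))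
      = ∑ R, ∑ R', F R R' * (∑ u ∈ C, chi R u * chi R' u) ^ 2 := by
    calc ∑ u ∈ C, ∑ v ∈ C, ∑ R, ∑ R', F R R' * ((chi R u * chi R v) * (chi R' u * chi R' v))
        = ∑ u ∈ C, ∑ R, ∑ v ∈ C, ∑ R', F R R' * ((chi R u * chi R v) * (chi R' u * chi R' v)) := by
          refine Finset.sum_congr rfl fun u _ => Finset.sum_comm
      _ = ∑ u ∈ C, ∑ R, ∑ R', ∑ v ∈ C, F R R' * ((chi R u * chi R v) * (chi R' u * chi R' v)) := by
          refine Finset.sum_congr rfl fun u _ => Finset.sum_congr rfl fun R _ => Finset.sum_comm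
      _ = ∑ R, ∑ u ∈ C, ∑ R', ∑ v ∈ C, F R R' * ((chi R u * chi R v) * (chi R' u * chi R' v)) :=
          Finset.sum_comm
      _ = ∑ R, ∑ R', ∑ u ∈ C, ∑ v ∈ C, F R R' * ((chi R u * chi R v) * (chi R' u * chi R' v)) := by
          refine Finset.sum_congr rfl fun R _ => Finset.sum_comm
      _ = _ := by
          refine Finset.sum_congr rfl fun R _ => Finset.sum_congr rfl fun R' _ => ?_
          rw [sq, Finset.sum_mul_sum, Finset.mul_sum]
          refine Finset.sum_congr rfl fun u _ => ?_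
          rw [Finset.mul_sum]
          refine Finset.sum_congr rfl fun v _ => ?_
          ring
  rw [h1, Finset.sum_mul]
  refine Finset.sum_le_sum fun R _ => ?_
  have h2 : F R R * (C.card : ℝ) ^ 2 = F R R * (∑ u ∈ C, chi R u * chi R u) ^ 2 := by
    congr 2
    rw [Finset.sum_congr rfl fun u _ => chi_sq R u]
    simp
  rw [h2]
  exact Finset.single_le_sum (f := fun R' => F R R' * (∑ u ∈ C, chi R u * chi R' u) ^ 2)
    (fun R' _ => mul_nonneg (hF _ _) (sq_nonneg _)) (Finset.mem_univ R)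

/-- **code bound from a kernel** -/
theorem kernel_bound (e T d : ℕ) (h : ι → Finset (Fin n) → ℝ) (hh : ∀ a, Harm e (h a))
    (c : ℕ → ℝ) (hc : ∀ j, 0 ≤ c j) (hsupp : ∀ j, j ∉ Finset.Icc (2 * e) T → c j = 0)
    (lam : ℝ)
    (heig : ∀ j ∈ Finset.Icc (2 * e) T,
      lam * c j ≤ ((n : ℝ) - 2 * e - j) * c (j + 1) + ((j : ℝ) - 2 * e) * c (j - 1))
    (hlam : (n : ℝ) - 2 * d ≤ lam)
    (C : Finset (Fin n → Bool))
    (hC : ∀ u ∈ C, ∀ v ∈ C, u ≠ v → d ≤ hammingDist u v) :
    (lam - ((n : ℝ) - 2 * d)) * (∑ R, Phi c h R R) * (C.card : ℝ) ^ 2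
      ≤ (C.card : ℝ) * (2 * d * ∑ R, ∑ R', Phi c h R R') := by
  set S : ℝ := (n : ℝ) - 2 * d with hS
  -- entrywise inequality
  have hent : ∀ R R', lam * Phi c h R R' ≤ ∑ i, Phi c h (tog i R) R' := by
    intro R R'
    by_cases hR : R.card ∈ Finset.Icc (2 * e) T
    · refine le_trans ?_ (APhi_ge e h hh c hc R R')
      have h1 := heig _ hR
      have h2 := mul_le_mul_of_nonneg_left h1 (mul_nonneg (hc R'.card) (sq_nonneg (Z h R R')))
      calc lam * Phi c h R R' = c R'.card * (Z h R R') ^ 2 * (lam * c R.card) := by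
            unfold Phi; ring
        _ ≤ _ := h2
    · have h0 : Phi c h R R' = 0 := by
        unfold Phi
        rw [hsupp _ hR]; ring
      rw [h0, mul_zero]
      exact Finset.sum_nonneg fun i _ => Phi_nonneg c hc h _ _
  -- nonnegative kernel
  have hF : ∀ R R', 0 ≤ (∑ i, Phi c h (tog i R) R') - S * Phi c h R R' := by
    intro R R'
    have h1 := hent R R'
    have h2 := mul_nonneg (sub_nonneg.2 hlam) (Phi_nonneg c hc h R R')
    nlinarith
  have h3 := code_sum_ge (fun R R' => (∑ i, Phi c h (tog i R) R') - S * Phi c h R R') hF C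
  have h4 : (lam - S) * (∑ R, Phi c h R R)
      ≤ ∑ R, ((∑ i, Phi c h (tog i R) R) - S * Phi c h R R) := by
    rw [Finset.mul_sum]
    refine Finset.sum_le_sum fun R _ => ?_
    have := hent R R
    linarith
  have h5 : (lam - S) * (∑ R, Phi c h R R) * (C.card : ℝ) ^ 2
      ≤ (∑ R, ((∑ i, Phi c h (tog i R) R) - S * Phi c h R R)) * (C.card : ℝ) ^ 2 :=
    mul_le_mul_of_nonneg_right h4 (sq_nonneg _)
  refine le_trans h5 (le_trans h3 ?_)
  -- evaluate
  have h6 : ∀ u v : Fin n → Bool, ∑ R, ∑ R', ((∑ i, Phi c h (tog i R) R') - S * Phi c h R R')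
      * ((chi R u * chi R v) * (chi R' u * chi R' v))
      = (((n : ℝ) - 2 * (hammingDist u v : ℝ)) - S) *
        ∑ R, ∑ R', Phi c h R R' * ((chi R u * chi R v) * (chi R' u * chi R' v)) := by
    intro u v
    rw [sub_mul, shift_sum, Finset.mul_sum, ← Finset.sum_sub_distrib]
    refine Finset.sum_congr rfl fun R _ => ?_
    rw [Finset.mul_sum, ← Finset.sum_sub_distrib]
    refine Finset.sum_congr rfl fun R' _ => ?_
    ring
  have hG : ∀ u v : Fin n → Bool,
      0 ≤ ∑ R, ∑ R', Phi c h R R' * ((chi R u * chi R v) * (chi R' u * chi R' v)) := by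
    intro u v
    rw [sum_Phi_eq_sq c h (fun R => chi R u * chi R v)]
    exact Finset.sum_nonneg fun a _ => Finset.sum_nonneg fun b _ => sq_nonneg _
  have h7 : ∀ u ∈ C, ∑ v ∈ C, ∑ R, ∑ R', ((∑ i, Phi c h (tog i R) R') - S * Phi c h R R')
      * ((chi R u * chi R v) * (chi R' u * chi R' v))
      ≤ 2 * d * ∑ R, ∑ R', Phi c h R R' := by
    intro u hu
    have h8 : ∀ v ∈ C, ∑ R, ∑ R', ((∑ i, Phi c h (tog i R) R') - S * Phi c h R R')
      * ((chi R u * chi R v) * (chi R' u * chi R' v))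
      ≤ if v = u then 2 * d * ∑ R, ∑ R', Phi c h R R' else 0 := by
      intro v hv
      rw [h6]
      by_cases huv : v = u
      · subst huv
        rw [if_pos rfl]
        have h9 : ∑ R, ∑ R', Phi c h R R' * ((chi R v * chi R v) * (chi R' v * chi R' v))
            = ∑ R, ∑ R', Phi c h R R' := by
          refine Finset.sum_congr rfl fun R _ => Finset.sum_congr rfl fun R' _ => ?_
          rw [chi_sq, chi_sq]; ring
        rw [h9, hammingDist_self]
        apply le_of_eq
        rw [hS]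
        push_cast
        ring
      · rw [if_neg huv]
        refine mul_nonpos_of_nonpos_of_nonneg ?_ (hG u v)
        have h10 : (d : ℝ) ≤ hammingDist u v := by exact_mod_cast hC u hu v hv (Ne.symm huv)
        rw [hS]; linarith
    refine le_trans (Finset.sum_le_sum h8) ?_
    rw [Finset.sum_ite_eq' C u, if_pos hu]
  refine le_trans (Finset.sum_le_sum h7) ?_
  rw [Finset.sum_const, nsmul_eq_mul]

/-- **code bound with the sums evaluated** -/
theorem ratio_bound [DecidableEq ι] (e T d : ℕ) (h : ι → Finset (Fin n) → ℝ) (hh : ∀ a, Harm e (h a))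
    (c : ℕ → ℝ) (hc : ∀ j, 0 ≤ c j) (hsupp : ∀ j, j ∉ Finset.Icc (2 * e) T → c j = 0)
    (lam : ℝ)
    (heig : ∀ j ∈ Finset.Icc (2 * e) T,
      lam * c j ≤ ((n : ℝ) - 2 * e - j) * c (j + 1) + ((j : ℝ) - 2 * e) * c (j - 1))
    (hlam : (n : ℝ) - 2 * d ≤ lam) (s : ℝ) (hs : 0 < s)
    (horth : ∀ a b, ∑ R, c R.card * h a R * h b R = if a = b then s else 0)
    (C : Finset (Fin n → Bool))
    (hC : ∀ u ∈ C, ∀ v ∈ C, u ≠ v → d ≤ hammingDist u v) :
    (lam - ((n : ℝ) - 2 * d)) * (Fintype.card ι : ℝ) * (C.card : ℝ)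
      ≤ 2 * d * ∑ j ∈ Finset.Icc (2 * e) T, (n.choose j : ℝ) := by
  set D : ℝ := (Fintype.card ι : ℝ) with hD
  have hsum0 : (0 : ℝ) ≤ ∑ j ∈ Finset.Icc (2 * e) T, (n.choose j : ℝ) :=
    Finset.sum_nonneg fun j _ => Nat.cast_nonneg _
  rcases Nat.eq_zero_or_pos C.card with hC0 | hCpos
  · rw [hC0]
    simp only [Nat.cast_zero, mul_zero]
    positivity
  rcases Nat.eq_zero_or_pos (Fintype.card ι) with hι | hι
  · rw [hD, hι]
    simp only [Nat.cast_zero, mul_zero, zero_mul]
    positivity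
  have hDpos : 0 < D := by rw [hD]; exact_mod_cast hι
  have hCp : (0 : ℝ) < C.card := by exact_mod_cast hCpos
  have htot : ∑ R, ∑ R', Phi c h R R' = D * s ^ 2 := by
    have h1 := sum_Phi_eq_sq c h (fun _ => 1)
    simp only [mul_one] at h1
    rw [h1]
    simp_rw [horth]
    have h2 : ∀ a : ι, ∑ b, (if a = b then s else 0) ^ 2 = s ^ 2 := by
      intro a
      rw [Finset.sum_eq_single a]
      · simp
      · intro b _ hb
        simp [Ne.symm hb]
      · intro h; exact absurd (Finset.mem_univ a) h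
    rw [Finset.sum_congr rfl fun a _ => h2 a]
    simp [hD]
  -- Cauchy-Schwarz
  set B : Finset (Finset (Fin n)) := Finset.univ.filter (fun R => R.card ∈ Finset.Icc (2 * e) T)
    with hB
  have hBcard : (B.card : ℝ) = ∑ j ∈ Finset.Icc (2 * e) T, (n.choose j : ℝ) := by
    have h1 : B.card = ∑ j ∈ Finset.Icc (2 * e) T, (B.filter (fun R => R.card = j)).card := by
      apply Finset.card_eq_sum_card_fiberwise
      intro R hR
      simpa [hB] using hR
    rw [h1]
    push_cast
    refine Finset.sum_congr rfl fun j hj => ?_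
    have h2 : B.filter (fun R => R.card = j) = Finset.powersetCard j Finset.univ := by
      ext R
      simp only [hB, Finset.mem_filter, Finset.mem_univ, true_and, Finset.mem_powersetCard,
        Finset.subset_univ]
      constructor
      · exact fun h => h.2
      · intro h; rw [h]; exact ⟨hj, rfl⟩
    rw [h2, Finset.card_powersetCard, Finset.card_univ, Fintype.card_fin]
  have hCS : (D * s) ^ 2 ≤ (B.card : ℝ) * ∑ R, Phi c h R R := by
    have h1 : D * s = ∑ R, c R.card * Z h R R := by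
      have h2 : ∑ R, c R.card * Z h R R = ∑ a, ∑ R, c R.card * h a R * h a R := by
        rw [Finset.sum_comm]
        refine Finset.sum_congr rfl fun R _ => ?_
        unfold Z
        rw [Finset.mul_sum]
        exact Finset.sum_congr rfl fun a _ => by ring
      rw [h2]
      simp_rw [horth]
      simp [hD]
    have h3 : ∑ R, c R.card * Z h R R = ∑ R ∈ B, c R.card * Z h R R := by
      symm
      apply Finset.sum_subset (Finset.subset_univ B)
      intro R _ hR
      have : R.card ∉ Finset.Icc (2 * e) T := by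
        intro h; exact hR (by simpa [hB] using h)
      rw [hsupp _ this, zero_mul]
    rw [h1, h3]
    refine le_trans (sq_sum_le_card_mul_sum_sq (s := B) (f := fun R => c R.card * Z h R R)) ?_
    refine mul_le_mul_of_nonneg_left ?_ (Nat.cast_nonneg _)
    refine le_trans ?_ (Finset.sum_le_univ_sum_of_nonneg (s := B)
      (f := fun R => Phi c h R R) fun R => Phi_nonneg c hc h R R)
    refine Finset.sum_le_sum fun R _ => ?_
    unfold Phi
    apply le_of_eq; ring
  have hmain := kernel_bound e T d h hh c hc hsupp lam heig hlam C hC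
  rw [htot] at hmain
  -- combine
  set tr : ℝ := ∑ R, Phi c h R R with htr
  have hl0 : 0 ≤ lam - ((n : ℝ) - 2 * d) := sub_nonneg.2 hlam
  have h1 : (lam - ((n : ℝ) - 2 * d)) * tr * (C.card : ℝ) ≤ 2 * d * (D * s ^ 2) := by
    have : (lam - ((n : ℝ) - 2 * d)) * tr * (C.card : ℝ) * (C.card : ℝ)
        ≤ (2 * d * (D * s ^ 2)) * (C.card : ℝ) := by
      calc _ = (lam - ((n : ℝ) - 2 * d)) * tr * (C.card : ℝ) ^ 2 := by ring
        _ ≤ _ := hmain
        _ = _ := by ring
    exact le_of_mul_le_mul_right this hCp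
  rw [← hBcard]
  have h2 : (lam - ((n : ℝ) - 2 * d)) * (C.card : ℝ) * (D * s) ^ 2
      ≤ (lam - ((n : ℝ) - 2 * d)) * (C.card : ℝ) * ((B.card : ℝ) * tr) :=
    mul_le_mul_of_nonneg_left hCS (mul_nonneg hl0 hCp.le)
  have h3 : ((lam - ((n : ℝ) - 2 * d)) * D * (C.card : ℝ)) * (D * s ^ 2)
      ≤ (2 * d * (B.card : ℝ)) * (D * s ^ 2) := by
    calc ((lam - ((n : ℝ) - 2 * d)) * D * (C.card : ℝ)) * (D * s ^ 2)
        = (lam - ((n : ℝ) - 2 * d)) * (C.card : ℝ) * (D * s) ^ 2 := by ring
      _ ≤ _ := h2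
      _ = (B.card : ℝ) * ((lam - ((n : ℝ) - 2 * d)) * tr * (C.card : ℝ)) := by ring
      _ ≤ (B.card : ℝ) * (2 * d * (D * s ^ 2)) :=
          mul_le_mul_of_nonneg_left h1 (Nat.cast_nonneg _)
      _ = _ := by ring
  exact le_of_mul_le_mul_right h3 (by positivity)

end abstractBound

end Pool.Agent.Helper23.KL
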