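import Pool.Agent.Helper23.KL.Cube

/-!
# Harmonic functions of degree `e = k+1` on the cube, dimension count and orthogonality (helper23)
-/

namespace Pool.Agent.Helper23.KL

open Finset

variable {n : ℕ}

/-- extension by zero of a function on the level `e` -/
def ext (e : ℕ) (g : {Q : Finset (Fin n) // Q.card = e} → ℝ) (R : Finset (Fin n)) : ℝ :=
  if h : R.card = e then g ⟨R, h⟩ else 0

/-- polynomial extension -/
def pol (e : ℕ) (g : Finset (Fin n) → ℝ) (R : Finset (Fin n)) : ℝ :=
  ∑ Q ∈ powersetCard e R, g Q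

lemma pol_down (e : ℕ) (g : Finset (Fin n) → ℝ) (R : Finset (Fin n)) :
    ∑ i ∈ R, pol e g (R.erase i) = ((R.card : ℝ) - e) * pol e g R := by
  unfold pol
  have h1 : ∀ i ∈ R, ∑ Q ∈ powersetCard e (R.erase i), g Q
      = ∑ Q ∈ powersetCard e R, if i ∈ Q then 0 else g Q := by
    intro i hi
    rw [← Finset.sum_filter_not_add_sum_filter (powersetCard e R) (fun Q => i ∈ Q)]
    have h2 : ∑ Q ∈ (powersetCard e R).filter (fun Q => i ∈ Q), (if i ∈ Q then 0 else g Q) = 0 := by
      apply Finset.sum_eq_zero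
      intro Q hQ
      rw [if_pos (Finset.mem_filter.1 hQ).2]
    rw [h2, add_zero]
    have h3 : powersetCard e (R.erase i) = (powersetCard e R).filter (fun Q => i ∉ Q) := by
      ext Q
      simp only [mem_powersetCard, mem_filter, subset_erase]
      tauto
    rw [h3]
    refine Finset.sum_congr rfl fun Q hQ => ?_
    rw [if_neg (Finset.mem_filter.1 hQ).2]
  rw [Finset.sum_congr rfl h1, Finset.sum_comm, Finset.mul_sum]
  refine Finset.sum_congr rfl fun Q hQ => ?_
  rw [mem_powersetCard] at hQ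
  rw [Finset.sum_ite, Finset.sum_const_zero, zero_add, Finset.sum_const, nsmul_eq_mul]
  congr 1
  have h4 : (R.filter (fun i => i ∉ Q)) = R \ Q := by
    ext x; simp
  rw [h4, Finset.card_sdiff_of_subset hQ.1, hQ.2, Nat.cast_sub]
  rw [← hQ.2]; exact card_le_card hQ.1

lemma pol_insert_sum (k : ℕ) (g : Finset (Fin n) → ℝ) (R : Finset (Fin n)) :
    ∑ Q ∈ powersetCard k R, ∑ i ∈ R \ Q, g (insert i Q)
      = ((k : ℝ) + 1) * pol (k + 1) g R := by
  unfold pol
  have h1 : ((k : ℝ) + 1) * ∑ Q ∈ powersetCard (k + 1) R, g Q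
      = ∑ Q ∈ powersetCard (k + 1) R, ∑ i ∈ Q, g Q := by
    rw [Finset.mul_sum]
    refine Finset.sum_congr rfl fun Q hQ => ?_
    rw [Finset.sum_const, (mem_powersetCard.1 hQ).2, nsmul_eq_mul]
    push_cast; ring
  rw [h1, Finset.sum_sigma', Finset.sum_sigma']
  refine Finset.sum_bij' (fun x _ => ⟨insert x.2 x.1, x.2⟩) (fun x _ => ⟨x.1.erase x.2, x.2⟩)
    ?_ ?_ ?_ ?_ ?_
  · rintro ⟨Q, i⟩ hx
    simp only [mem_sigma, mem_powersetCard, mem_sdiff] at hx ⊢
    refine ⟨⟨?_, ?_⟩, mem_insert_self _ _⟩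
    · exact insert_subset hx.2.1 hx.1.1
    · rw [card_insert_of_notMem hx.2.2, hx.1.2]
  · rintro ⟨Q, i⟩ hx
    simp only [mem_sigma, mem_powersetCard, mem_sdiff] at hx ⊢
    refine ⟨⟨(erase_subset _ _).trans hx.1.1, ?_⟩, hx.1.1 hx.2, notMem_erase _ _⟩
    rw [card_erase_of_mem hx.2, hx.1.2]; rfl
  · rintro ⟨Q, i⟩ hx
    simp only [mem_sigma, mem_powersetCard, mem_sdiff] at hx
    simp [erase_insert hx.2.2]
  · rintro ⟨Q, i⟩ hx
    simp only [mem_sigma, mem_powersetCard, mem_sdiff] at hx
    simp [insert_erase hx.2]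
  · rintro ⟨Q, i⟩ hx
    rfl

/-- the harmonicity condition -/
def Closed (k : ℕ) (g : Finset (Fin n) → ℝ) : Prop :=
  ∀ Q : Finset (Fin n), Q.card = k → ∑ i ∈ Qᶜ, g (insert i Q) = 0

lemma pol_up (k : ℕ) (g : Finset (Fin n) → ℝ) (hg : Closed k g) (R : Finset (Fin n)) :
    ∑ i ∈ Rᶜ, pol (k + 1) g (insert i R)
      = ((n : ℝ) - (k + 1) - R.card) * pol (k + 1) g R := by
  have h1 : ∀ i ∈ Rᶜ, pol (k + 1) g (insert i R)
      = pol (k + 1) g R + ∑ Q ∈ powersetCard k R, g (insert i Q) := by
    intro i hi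
    rw [mem_compl] at hi
    unfold pol
    rw [powersetCard_succ_insert hi, Finset.sum_union, Finset.sum_image]
    · intro Q hQ Q' hQ' hQQ
      have h2 : i ∉ Q := fun h => hi ((mem_powersetCard.1 hQ).1 h)
      have h3 : i ∉ Q' := fun h => hi ((mem_powersetCard.1 hQ').1 h)
      rw [← erase_insert h2, ← erase_insert h3, hQQ]
    · rw [Finset.disjoint_left]
      intro Q hQ hQ'
      rw [mem_image] at hQ'
      obtain ⟨Q', _, rfl⟩ := hQ'
      exact hi ((mem_powersetCard.1 hQ).1 (mem_insert_self _ _))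
  rw [Finset.sum_congr rfl h1, Finset.sum_add_distrib, Finset.sum_const, Finset.sum_comm]
  have h2 : ∀ Q ∈ powersetCard k R, ∑ i ∈ Rᶜ, g (insert i Q)
      = - ∑ i ∈ R \ Q, g (insert i Q) := by
    intro Q hQ
    rw [mem_powersetCard] at hQ
    have h3 := hg Q hQ.2
    have h4 : Qᶜ = Rᶜ ∪ (R \ Q) := by
      ext x
      simp only [mem_compl, mem_union, mem_sdiff]
      constructor
      · intro h
        by_cases hx : x ∈ R
        · exact Or.inr ⟨hx, h⟩
        · exact Or.inl hx
      · rintro (h | h)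
        · exact fun hx => h (hQ.1 hx)
        · exact h.2
    rw [h4, Finset.sum_union] at h3
    · linarith
    · rw [Finset.disjoint_left]
      intro x hx hx'
      exact (mem_compl.1 hx) (mem_sdiff.1 hx').1
  rw [Finset.sum_congr rfl h2, Finset.sum_neg_distrib, pol_insert_sum, card_compl,
    Fintype.card_fin, nsmul_eq_mul, Nat.cast_sub]
  · ring
  · simpa using card_le_univ R

lemma harm_pol (k : ℕ) (g : Finset (Fin n) → ℝ) (hg : Closed k g) :
    Harm (k + 1) (pol (k + 1) g) := by
  intro c R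
  have h1 : ∀ i, c (tog i R).card * pol (k + 1) g (tog i R)
      = (if i ∈ R then c (R.card - 1) * pol (k + 1) g (R.erase i) else 0)
        + (if i ∈ R then 0 else c (R.card + 1) * pol (k + 1) g (insert i R)) := by
    intro i
    by_cases h : i ∈ R
    · simp [h, card_tog_of_mem h, tog_of_mem h]
    · simp [h, card_tog_of_notMem h, tog_of_notMem h]
  rw [Finset.sum_congr rfl fun i _ => h1 i, Finset.sum_add_distrib]
  have h2 : ∑ i, (if i ∈ R then c (R.card - 1) * pol (k + 1) g (R.erase i) else 0)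
      = c (R.card - 1) * (((R.card : ℝ) - (k + 1 : ℕ)) * pol (k + 1) g R) := by
    rw [← pol_down, Finset.mul_sum, ← Finset.sum_filter]
    congr 1
    ext x; simp
  have h3 : ∑ i, (if i ∈ R then 0 else c (R.card + 1) * pol (k + 1) g (insert i R))
      = c (R.card + 1) * (((n : ℝ) - (k + 1) - R.card) * pol (k + 1) g R) := by
    rw [← pol_up k g hg, Finset.mul_sum]
    have h4 : ∀ i, (if i ∈ R then 0 else c (R.card + 1) * pol (k + 1) g (insert i R))
        = (if i ∉ R then c (R.card + 1) * pol (k + 1) g (insert i R) else 0) := by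
      intro i
      by_cases h : i ∈ R <;> simp [h]
    rw [Finset.sum_congr rfl fun i _ => h4 i, ← Finset.sum_filter]
    congr 1
    ext x; simp
  rw [h2, h3]
  push_cast
  ring

/-- level sums -/
def lev (f f' : Finset (Fin n) → ℝ) (j : ℕ) : ℝ :=
  ∑ R, (if R.card = j then f R * f' R else 0)

lemma lev_succ (e : ℕ) (f f' : Finset (Fin n) → ℝ) (hf : Harm e f) (hf' : Harm e f') (j : ℕ) :
    ((j : ℝ) + 1 - e) * lev f f' (j + 1) = ((n : ℝ) - e - j) * lev f f' j := by
  have key : ∑ R, ∑ i : Fin n, (if R.card = j then f R else 0) *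
        ((if (tog i R).card = j + 1 then (1 : ℝ) else 0) * f' (tog i R))
      = ∑ R, ∑ i : Fin n, (if R.card = j + 1 then f' R else 0) *
        ((if (tog i R).card = j then (1 : ℝ) else 0) * f (tog i R)) := by
    rw [Finset.sum_comm]
    conv_rhs => rw [Finset.sum_comm]
    refine Finset.sum_congr rfl fun i _ => ?_
    rw [← Equiv.sum_comp (togP i)]
    refine Finset.sum_congr rfl fun R _ => ?_
    rw [togP_apply, tog_tog]
    by_cases h1 : (tog i R).card = j <;> by_cases h2 : R.card = j + 1 <;> simp [h1, h2]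
    ring
  have h1 : ∀ R : Finset (Fin n), ∑ i : Fin n, (if R.card = j then f R else 0) *
        ((if (tog i R).card = j + 1 then (1 : ℝ) else 0) * f' (tog i R))
      = ((n : ℝ) - e - j) * (if R.card = j then f R * f' R else 0) := by
    intro R
    rw [← Finset.mul_sum, hf' (fun m => if m = j + 1 then (1 : ℝ) else 0) R]
    by_cases h : R.card = j
    · rw [if_pos h, if_pos h, h]
      have h2 : ¬ (j - 1 = j + 1) := by omega
      simp [h2]
      ring
    · simp [h]
  have h2 : ∀ R : Finset (Fin n), ∑ i : Fin n, (if R.card = j + 1 then f' R else 0) *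
        ((if (tog i R).card = j then (1 : ℝ) else 0) * f (tog i R))
      = ((j : ℝ) + 1 - e) * (if R.card = j + 1 then f R * f' R else 0) := by
    intro R
    rw [← Finset.mul_sum, hf (fun m => if m = j then (1 : ℝ) else 0) R]
    by_cases h : R.card = j + 1
    · rw [if_pos h, if_pos h, h]
      have h2 : ¬ (j + 1 + 1 = j) := by omega
      rw [if_neg h2, Nat.add_sub_cancel, if_pos rfl]
      push_cast
      ring
    · simp [h]
  rw [Finset.sum_congr rfl fun R _ => h1 R, Finset.sum_congr rfl fun R _ => h2 R,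
    ← Finset.mul_sum, ← Finset.mul_sum] at key
  exact key.symm

/-- weights of the levels -/
noncomputable def rho (n e : ℕ) (j : ℕ) : ℝ := ∏ i ∈ Finset.range (j - e), ((n : ℝ) - 2 * e - i) / (i + 1)

lemma rho_pos (n e j : ℕ) (hj : j + e ≤ n) (hej : e ≤ j) : 0 < rho n e j := by
  unfold rho
  apply Finset.prod_pos
  intro i hi
  rw [mem_range] at hi
  have h1 : i + 1 + 2 * e ≤ n := by omega
  have h2 : ((i : ℝ) + 1 + 2 * e) ≤ n := by exact_mod_cast h1
  apply div_pos <;> linarith [(Nat.cast_nonneg i : (0 : ℝ) ≤ i)]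

lemma lev_eq (e : ℕ) (f f' : Finset (Fin n) → ℝ) (hf : Harm e f) (hf' : Harm e f') (j : ℕ)
    (hj : e ≤ j) : lev f f' j = rho n e j * lev f f' e := by
  induction j, hj using Nat.le_induction with
  | base => simp [rho]
  | succ j hj ih =>
    have h1 := lev_succ e f f' hf hf' j
    rw [ih] at h1
    have h2 : rho n e (j + 1) = rho n e j * (((n : ℝ) - 2 * e - (j - e : ℕ)) / ((j - e : ℕ) + 1)) := by
      unfold rho
      rw [Nat.succ_sub hj, Finset.prod_range_succ]
    rw [h2]
    have h3 : ((j - e : ℕ) : ℝ) = j - e := by rw [Nat.cast_sub hj]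
    have h4 : ((j : ℝ) - e + 1) ≠ 0 := by
      have : (e : ℝ) ≤ j := by exact_mod_cast hj
      linarith
    rw [h3]
    have h5 : lev f f' (j + 1) * ((j : ℝ) - e + 1)
        = rho n e j * ((n : ℝ) - 2 * e - (j - e)) * lev f f' e := by
      rw [show lev f f' (j + 1) * ((j : ℝ) - e + 1) = ((j : ℝ) + 1 - e) * lev f f' (j + 1) by ring,
        h1]
      ring
    rw [mul_div_assoc', div_mul_eq_mul_div, eq_div_iff h4]
    linarith [h5]

lemma sum_c_lev (c : ℕ → ℝ) (J : Finset ℕ) (hsupp : ∀ j, j ∉ J → c j = 0)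
    (f f' : Finset (Fin n) → ℝ) :
    ∑ R, c R.card * f R * f' R = ∑ j ∈ J, c j * lev f f' j := by
  unfold lev
  simp_rw [Finset.mul_sum]
  rw [Finset.sum_comm]
  refine Finset.sum_congr rfl fun R _ => ?_
  by_cases h : R.card ∈ J
  · rw [Finset.sum_eq_single R.card]
    · simp; ring
    · intro j _ hj
      rw [if_neg (Ne.symm hj), mul_zero]
    · intro h'; exact absurd h h'
  · rw [hsupp _ h, zero_mul, zero_mul]
    symm
    apply Finset.sum_eq_zero
    intro j hj
    have : R.card ≠ j := by rintro rfl; exact h hj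
    rw [if_neg this, mul_zero]

/-- the closing map -/
noncomputable def clo (n k : ℕ) :
    EuclideanSpace ℝ {Q : Finset (Fin n) // Q.card = k + 1} →ₗ[ℝ]
      ({Q : Finset (Fin n) // Q.card = k} → ℝ) where
  toFun g := fun Q => ∑ i ∈ Q.1ᶜ, ext (k + 1) (fun x => g x) (insert i Q.1)
  map_add' g g' := by
    funext Q
    simp only [Pi.add_apply]
    rw [← Finset.sum_add_distrib]
    refine Finset.sum_congr rfl fun i _ => ?_
    unfold ext
    split_ifs with h
    · simp
    · simp
  map_smul' r g := by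
    funext Q
    simp only [Pi.smul_apply, RingHom.id_apply, smul_eq_mul]
    rw [Finset.mul_sum]
    refine Finset.sum_congr rfl fun i _ => ?_
    unfold ext
    split_ifs with h
    · simp
    · simp

lemma finrank_ker_clo (n k : ℕ) :
    (n.choose (k + 1) : ℝ) - n.choose k ≤ Module.finrank ℝ (LinearMap.ker (clo n k)) := by
  have h1 := LinearMap.finrank_range_add_finrank_ker (clo n k)
  have h2 : Module.finrank ℝ (EuclideanSpace ℝ {Q : Finset (Fin n) // Q.card = k + 1})
      = n.choose (k + 1) := by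
    rw [finrank_euclideanSpace, Fintype.card_finset_len, Fintype.card_fin]
  have h3 : Module.finrank ℝ (LinearMap.range (clo n k)) ≤ n.choose k := by
    refine le_trans (Submodule.finrank_le _) ?_
    rw [Module.finrank_fintype_fun_eq_card, Fintype.card_finset_len, Fintype.card_fin]
  rw [h2] at h1
  have h4 : n.choose (k + 1) ≤ n.choose k + Module.finrank ℝ (LinearMap.ker (clo n k)) := by omega
  have h5 : (n.choose (k + 1) : ℝ) ≤ n.choose k + Module.finrank ℝ (LinearMap.ker (clo n k)) := by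
    exact_mod_cast h4
  linarith

lemma lev_base (k : ℕ) (x y : EuclideanSpace ℝ {Q : Finset (Fin n) // Q.card = k + 1}) :
    lev (pol (k + 1) (ext (k + 1) (fun q => x q))) (pol (k + 1) (ext (k + 1) (fun q => y q)))
      (k + 1) = inner ℝ x y := by
  have h1 : ∀ (x : EuclideanSpace ℝ {Q : Finset (Fin n) // Q.card = k + 1})
      (R : Finset (Fin n)) (hR : R.card = k + 1),
      pol (k + 1) (ext (k + 1) (fun q => x q)) R = x ⟨R, hR⟩ := by
    intro x R hR
    unfold pol
    have h2 : powersetCard (k + 1) R = {R} := by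
      conv_lhs => rw [← hR]
      exact powersetCard_self R
    rw [h2, Finset.sum_singleton]
    unfold ext
    rw [dif_pos hR]
  rw [PiLp.inner_apply]
  unfold lev
  rw [← Finset.sum_filter]
  rw [Finset.sum_subtype (Finset.univ.filter fun R : Finset (Fin n) => R.card = k + 1)
    (p := fun R => R.card = k + 1) (fun x => by simp)]
  refine Finset.sum_congr rfl fun q _ => ?_
  rw [h1 x q.1 q.2, h1 y q.1 q.2]
  simp only [RCLike.inner_apply, conj_trivial]
  exact mul_comm _ _

/-- **the finite bound** -/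
theorem cube_bound (n k T d : ℕ) (c : ℕ → ℝ) (hc : ∀ j, 0 ≤ c j)
    (hsupp : ∀ j, j ∉ Finset.Icc (2 * (k + 1)) T → c j = 0)
    (hpos : ∃ j ∈ Finset.Icc (2 * (k + 1)) T, 0 < c j) (hT : T + (k + 1) ≤ n)
    (lam : ℝ)
    (heig : ∀ j ∈ Finset.Icc (2 * (k + 1)) T,
      lam * c j ≤ ((n : ℝ) - 2 * (k + 1 : ℕ) - j) * c (j + 1)
        + ((j : ℝ) - 2 * (k + 1 : ℕ)) * c (j - 1))
    (hlam : (n : ℝ) - 2 * d ≤ lam) (C : Finset (Fin n → Bool))
    (hC : ∀ u ∈ C, ∀ v ∈ C, u ≠ v → d ≤ hammingDist u v) :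
    (lam - ((n : ℝ) - 2 * d)) * ((n.choose (k + 1) : ℝ) - n.choose k) * (C.card : ℝ)
      ≤ 2 * d * ∑ j ∈ Finset.Icc (2 * (k + 1)) T, (n.choose j : ℝ) := by
  classical
  set W := LinearMap.ker (clo n k) with hW
  let b := stdOrthonormalBasis ℝ W
  let g : Fin (Module.finrank ℝ W) → Finset (Fin n) → ℝ := fun a => ext (k + 1) (fun x => (b a : EuclideanSpace ℝ {Q : Finset (Fin n) // Q.card = k + 1}) x)
  let h : Fin (Module.finrank ℝ W) → Finset (Fin n) → ℝ := fun a => pol (k + 1) (g a)
  have hclosed : ∀ a, Closed k (g a) := by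
    intro a Q hQ
    have h1 : clo n k (b a : EuclideanSpace ℝ {Q : Finset (Fin n) // Q.card = k + 1}) = 0 :=
      LinearMap.mem_ker.1 (b a).2
    have h2 := congrFun h1 ⟨Q, hQ⟩
    exact h2
  have hh : ∀ a, Harm (k + 1) (h a) := fun a => harm_pol k (g a) (hclosed a)
  have hbase : ∀ a a', lev (h a) (h a') (k + 1) = if a = a' then 1 else 0 := by
    intro a a'
    have h2 := lev_base k (b a : EuclideanSpace ℝ {Q : Finset (Fin n) // Q.card = k + 1})
      (b a' : EuclideanSpace ℝ {Q : Finset (Fin n) // Q.card = k + 1})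
    have h3 := orthonormal_iff_ite.1 b.orthonormal a a'
    rw [Submodule.coe_inner] at h3
    rw [← h3]
    exact h2
  set s : ℝ := ∑ j ∈ Finset.Icc (2 * (k + 1)) T, c j * rho n (k + 1) j with hs
  have hspos : 0 < s := by
    rw [hs]
    apply Finset.sum_pos'
    · intro j hj
      rw [mem_Icc] at hj
      exact mul_nonneg (hc j) (rho_pos n (k + 1) j (by omega) (by omega)).le
    · obtain ⟨j, hj, hj'⟩ := hpos
      refine ⟨j, hj, ?_⟩
      rw [mem_Icc] at hj
      exact mul_pos hj' (rho_pos n (k + 1) j (by omega) (by omega))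
  have horth : ∀ a a', ∑ R, c R.card * h a R * h a' R = if a = a' then s else 0 := by
    intro a a'
    rw [sum_c_lev c (Finset.Icc (2 * (k + 1)) T) hsupp]
    have h1 : ∀ j ∈ Finset.Icc (2 * (k + 1)) T, c j * lev (h a) (h a') j
        = (c j * rho n (k + 1) j) * (if a = a' then 1 else 0) := by
      intro j hj
      rw [mem_Icc] at hj
      rw [lev_eq (k + 1) _ _ (hh a) (hh a') j (by omega), hbase]
      ring
    rw [Finset.sum_congr rfl h1, ← Finset.sum_mul, ← hs]
    by_cases haa : a = a' <;> simp [haa]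
  have hmain := ratio_bound (k + 1) T d h hh c hc hsupp lam heig hlam s hspos horth C hC
  rw [Fintype.card_fin] at hmain
  refine le_trans ?_ hmain
  refine mul_le_mul_of_nonneg_right ?_ (Nat.cast_nonneg _)
  exact mul_le_mul_of_nonneg_left (finrank_ker_clo n k) (sub_nonneg.2 hlam)

end Pool.Agent.Helper23.KL
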